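import Mathlib
import Pool.Agent.X198.PsTop

set_option autoImplicit false

universe u

namespace Pool.Agent.Results.MP_8fa6fd_gt.NotSelective

open Set Filter Topology Cardinal Pool.Agent.X198.PsTree Pool.Agent.X198.PsTop

/-- `τ` is a Hausdorff pseudocompact group topology on the abelian group `G`. -/
def PseudocompactGroupTopology (G : Type u) [AddCommGroup G] (τ : TopologicalSpace G) : Prop :=
  @IsTopologicalAddGroup G τ _ ∧ @T2Space G τ ∧ @Pseudocompact G τ

/-- Group topologies are completely regular. -/
theorem completelyRegular (G : Type u) [AddCommGroup G] [τ : TopologicalSpace G]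
    [IsTopologicalAddGroup G] : CompletelyRegularSpace G :=
  CompletelyRegularSpace.of_exists_uniformSpace
    ⟨IsTopologicalAddGroup.rightUniformSpace G, rfl⟩

/-- A vector space over `F₂` with at least continuum many elements absorbs the tree group. -/
theorem absorb (G : Type u) [AddCommGroup G] [Module (ZMod 2) G] (hc : 𝔠 ≤ #G) :
    Nonempty (G ≃ₗ[ZMod 2] (G1 × G)) := by
  let b := Module.Basis.ofVectorSpace (ZMod 2) G
  set ι := Module.Basis.ofVectorSpaceIndex (ZMod 2) G with hι
  have hcard : #G = #(ι →₀ ZMod 2) := b.repr.toEquiv.cardinal_eq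
  have hinf : Infinite ι := by
    by_contra hfin
    rw [not_infinite_iff_finite] at hfin
    have : Finite (ι →₀ ZMod 2) := Finite.of_injective (fun x : ι →₀ ZMod 2 => (x : ι → ZMod 2))
      DFunLike.coe_injective
    have h1 := lt_aleph0_of_finite (ι →₀ ZMod 2)
    rw [← hcard] at h1
    exact absurd (hc.trans_lt h1) (not_lt.2 aleph0_le_continuum)
  have hιc : 𝔠 ≤ #ι := by
    rw [mk_finsupp_lift_of_infinite] at hcard
    have h2 : lift.{u} #(ZMod 2) ≤ lift.{0} #ι := by
      have h3 : lift.{u} #(ZMod 2) < ℵ₀ := by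
        rw [lift_lt_aleph0]
        exact lt_aleph0_of_finite _
      exact h3.le.trans (by rw [aleph0_le_lift]; exact aleph0_le_mk ι)
    rw [max_eq_left h2, lift_uzero] at hcard
    rwa [← hcard]
  have hsum : #(T ⊕ ι) = #ι := by
    rw [mk_sum, lift_id'.{0, u}]
    refine add_eq_right (aleph0_le_mk ι) (le_trans ?_ hιc)
    have := lift_le.{u}.2 card_T
    rwa [lift_continuum] at this
  obtain ⟨e⟩ := Cardinal.eq.1 hsum
  exact ⟨b.repr.trans (((Finsupp.domLCongr e).symm.trans
    (Finsupp.sumFinsuppLEquivProdFinsupp (ZMod 2))).trans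
    ((LinearEquiv.refl (ZMod 2) G1).prodCongr b.repr.symm))⟩

/-- Transport of a topology along an isomorphism of groups. -/
theorem transport (G Y : Type u) [AddCommGroup G] [AddCommGroup Y] [TopologicalSpace Y]
    [IsTopologicalAddGroup Y] [T2Space Y] (e : G ≃+ Y) (hps : Pseudocompact Y)
    (hsel : ¬ SelPseudocompact Y) :
    ∃ τ : TopologicalSpace G, PseudocompactGroupTopology G τ ∧ ¬ @SelPseudocompact G τ := by
  refine ⟨TopologicalSpace.induced e ‹TopologicalSpace Y›, ⟨?_, ?_, ?_⟩, ?_⟩
  · exact topologicalAddGroup_induced e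
  · let _ : TopologicalSpace G := TopologicalSpace.induced e ‹TopologicalSpace Y›
    exact T2Space.of_injective_continuous e.injective continuous_induced_dom
  · intro f hf
    let _ : TopologicalSpace G := TopologicalSpace.induced e ‹TopologicalSpace Y›
    have hsymm : Continuous e.symm := by
      rw [continuous_induced_rng]
      have : (e ∘ e.symm) = id := by
        funext x
        simp
      rw [this]
      exact continuous_id
    obtain ⟨C, hC⟩ := hps (fun x => f (e.symm x)) (hf.comp hsymm)
    refine ⟨C, fun x => ?_⟩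
    have := hC (e x)
    simpa using this
  · intro hs
    refine hsel fun U hU => ?_
    obtain ⟨x, hx, p, hp⟩ := hs (fun n => e ⁻¹' U n) fun n => by
      refine ⟨⟨U n, (hU n).1, rfl⟩, ?_⟩
      obtain ⟨y, hy⟩ := (hU n).2
      exact ⟨e.symm y, by simpa using hy⟩
    refine ⟨fun n => e (x n), hx, e p, fun V hV => ?_⟩
    refine hp (e ⁻¹' V) ?_
    rw [nhds_induced]
    exact preimage_mem_comap hV

/-- **Every infinite pseudocompact Boolean group admits a pseudocompact group topology that is not
selectively pseudocompact** (in ZFC). -/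
theorem _root_.Pool.Agent.Results.MP_8fa6fd_gt.NotSelective.result (G : Type u) [AddCommGroup G]
    (hbool : ∀ x : G, x + x = 0) [Infinite G]
    (hG : ∃ τ : TopologicalSpace G, PseudocompactGroupTopology G τ) :
    ∃ τ : TopologicalSpace G, PseudocompactGroupTopology G τ ∧ ¬ @SelPseudocompact G τ := by
  obtain ⟨τ, hgrp, ht2, hps⟩ := hG
  let _ : Module (ZMod 2) G := AddCommGroup.zmodModule (n := 2) fun x => by
    rw [two_nsmul]; exact hbool x
  have := completelyRegular G
  have hfc : FC G := hps.fc
  have hcard : 𝔠 ≤ #G := continuum_le hfc (not_isOpen_singleton hfc)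
  obtain ⟨e⟩ := absorb G hcard
  exact transport G (G1 × G) e.toAddEquiv hfc.prod.pseudocompact (not_sel G)

end Pool.Agent.Results.MP_8fa6fd_gt.NotSelective
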